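import Pool.Agent.IDL28.Main

/-!
# Ideal embeddings of lower bounded lattices as chains of join preserving maps
-/

set_option autoImplicit false

open Order Pool.Agent.IDL28

namespace Pool.Agent.Results.MP_aedeaf_lc.JoinChains

theorem result (L : Type) [Lattice L] [OrderBot L] [Finite L] (hL : LowerBounded L) :
    (∃ φ : L → Ideal R, EmbedsIdeals φ) ↔
      ∃ g : ℕ → L → R, (∀ n a b, g n (a ⊔ b) = g n a ⊔ g n b) ∧
        (∀ n a, g n a ≤ g (n + 1) a) ∧ (∀ m n a b, g m a ≤ g n b → a ≤ b) ∧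
        ∀ n a b u, u ≤ g n a → u ≤ g n b → ∃ m, u ≤ g m (a ⊓ b) := by
  constructor
  · rintro ⟨φ, h⟩
    obtain ⟨g, h1, h2, h3, h4⟩ := exists_chain hL h
    refine ⟨g, h1, h2, h3, fun n a b u ha hb => ?_⟩
    have ha' : u ∈ φ a := (h4 a u).mpr ⟨n, ha⟩
    have hb' : u ∈ φ b := (h4 b u).mpr ⟨n, hb⟩
    have hab : u ∈ φ (a ⊓ b) := by
      rw [h.inf]
      exact ⟨ha', hb'⟩
    exact (h4 (a ⊓ b) u).mp hab
  · rintro ⟨g, h1, h2, h3, h4⟩
    obtain ⟨φ, h, -⟩ := embedsIdeals_of_chain h1 h2 h3 h4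
    exact ⟨φ, h⟩

end Pool.Agent.Results.MP_aedeaf_lc.JoinChains
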