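import Pool.Agent.IDL28.Main

/-!
# Embeddings into the c.e. degrees are the ideal embeddings with principal proper meets

For every finite lattice `L`, in particular for every principally decomposable one.
-/

set_option autoImplicit false

open Order Pool.Agent.IDL28

namespace Pool.Agent.Results.MP_aedeaf_lc.PrincipalMeets

theorem result (L : Type) [Lattice L] [OrderBot L] [Finite L] :
    (∃ f : L → R, EmbedsDegrees f) ↔
      ∃ φ : L → Ideal R, EmbedsIdeals φ ∧ φ ⊥ = Ideal.principal ⊥ ∧
        (∀ a b, ¬ a ≤ b → ¬ b ≤ a → a ⊓ b ∈ principalSet φ) ∧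
        ∀ p, Grounded (principalSet φ) p := by
  constructor
  · rintro ⟨f, hf⟩
    refine ⟨fun a => Ideal.principal (f a), embedsIdeals_of_degrees hf, ?_,
      fun a b _ _ => ⟨f (a ⊓ b), rfl⟩, fun p => .base p ⟨f p, rfl⟩⟩
    show Ideal.principal (f ⊥) = _
    rw [hf.bot]
  · rintro ⟨φ, h, hbot, hmeet, hG⟩
    obtain ⟨f, hf, -⟩ := exists_embedsDegrees h hbot hmeet hG
    exact ⟨f, hf⟩

end Pool.Agent.Results.MP_aedeaf_lc.PrincipalMeets
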